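import Pool.Agent.H68Z.Inj.Final

set_option autoImplicit false

open Cardinal Order Set

namespace Pool.Agent.Results.MP_5f3b23_lc.Supercompact

open Pool.Agent.H68Z.Inj

universe u

/-- If there is a supercompact cardinal, then there is a singular cardinal `lam` such that for
every `d : lam⁺ × lam⁺ → lam` the set of the `α < lam⁺` with `cf α ≠ cf lam` which are not in
`A(d)` is stationary in `lam⁺`. -/
theorem result (κ : Cardinal.{u}) (hκ : IsSupercompact κ) :
    ∃ lam : Cardinal.{u}, lam.IsSingular ∧
      ∀ d : (succ lam).ord.ToType → (succ lam).ord.ToType → lam.ord.ToType,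
        IsStationary
          ({α : (succ lam).ord.ToType | Order.cof (Iio α) ≠ lam.ord.cof} \ injSet d) := by
  obtain ⟨lam, h1, h2, h3, -⟩ := exists_lam κ κ hκ.1
  exact ⟨lam, ⟨(hκ.1.trans h3).le, (h2.trans h3).ne⟩, general hκ h1 h2 h3⟩

end Pool.Agent.Results.MP_5f3b23_lc.Supercompact
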